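import Pool.Agent.Helper41.TDC.Step

/-!
# Project TD (MP_5ecade_al), TDC-05 StepT: the correction is compatible with the unit, the torus and the automorphisms
-/

set_option autoImplicit false

namespace Pool.Agent.Helper41.TDC

open Pool.Agent.Helper81.TD

variable {N : Type} [Group N] [Fintype N] [DecidableEq N] {R : Type} [CommRing R]
  {𝔸 : Type} [Ring 𝔸] [Algebra R 𝔸] {c : N → N → N → R} {S : N → N → R} {l : N → 𝔸}
  {T : Subgroup N}

theorem cor_one (ht : TTr T c) (hl : l 1 = 1) : cor c S l 1 = 0 := by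
  have h1 : ∀ v, df c l v 1 = 0 := by
    intro v
    simp only [df, (ht 1 T.one_mem v _).2, mul_one, ite_smul, one_smul, zero_smul,
      Finset.sum_ite_eq', Finset.mem_univ, if_true, hl, sub_self]
  simp only [cor, h1, mul_zero, smul_zero, Finset.sum_const_zero]

theorem cor_right (hc : Asc c) (ht : TTr T c) (L : N → 𝔸)
    (hL : ∀ t ∈ T, ∀ a, l (t * a) = L t * l a ∧ l (a * t) = l a * L t) {t : N} (htT : t ∈ T) (a : N) :
    cor c S l (a * t) = cor c S l a * L t := by
  have h1 : ∀ v s, c v (a * t) s = c v a (s * t⁻¹) := by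
    intro v s
    have h2 := hc v a t s
    simp only [(ht t htT _ _).2, ite_mul, one_mul, zero_mul, Finset.sum_ite_eq', mul_ite, mul_one,
      mul_zero, Finset.mem_univ, if_true] at h2
    rw [← h2, Finset.sum_eq_single (s * t⁻¹)]
    · rw [if_pos (by group)]
    · intro x _ hx
      rw [if_neg]
      rintro rfl
      exact hx (by group)
    · intro h
      exact absurd (Finset.mem_univ _) h
  have h2 : ∀ v, df c l v (a * t) = df c l v a * L t := by
    intro v
    simp only [df, h1, sub_mul, (hL t htT a).2, mul_assoc]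
    congr 1
    rw [Finset.sum_mul, ← Equiv.sum_comp (Equiv.mulRight t) (fun s => c v a (s * t⁻¹) • l s)]
    refine Finset.sum_congr rfl fun s _ => ?_
    simp only [Equiv.coe_mulRight, mul_inv_cancel_right, (hL t htT s).2, Algebra.smul_mul_assoc]
  simp only [cor, h2, Finset.sum_mul, Algebra.smul_mul_assoc, mul_assoc]

theorem cor_left (hc : Asc c) (ht : TTr T c)
    (hs : ∀ a x y, ∑ s, S s y * c a s x = ∑ s, S x s * c s a y) (L : N → 𝔸)
    (hL : ∀ t ∈ T, ∀ a, l (t * a) = L t * l a ∧ l (a * t) = l a * L t) {t : N} (htT : t ∈ T) (a : N) :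
    cor c S l (t * a) = L t * cor c S l a := by
  have h1 : ∀ v s, c v (t * a) s = c (v * t) a s := by
    intro v s
    have h2 := hc v t a s
    simp only [(ht t htT _ _).1, (ht t htT _ _).2, ite_mul, one_mul, zero_mul, Finset.sum_ite_eq',
      Finset.mem_univ, if_true] at h2
    exact h2.symm
  have h2 : ∀ v, df c l v (t * a) = df c l (v * t) a := by
    intro v
    simp only [df, h1]
    rw [(hL t htT a).1, (hL t htT v).2, mul_assoc]
  have h3 : ∀ x y, S (t⁻¹ * x) y = S x (y * t⁻¹) := by
    intro x y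
    have h4 := hs t x y
    simp only [(ht t htT _ _).1, (ht t htT _ _).2, mul_ite, mul_one, mul_zero] at h4
    rw [Finset.sum_eq_single (t⁻¹ * x), Finset.sum_eq_single (y * t⁻¹), if_pos (by group),
      if_pos (by group)] at h4
    · exact h4
    · intro s _ hs'
      rw [if_neg]
      rintro rfl
      exact hs' (by group)
    · intro h
      exact absurd (Finset.mem_univ _) h
    · intro s _ hs'
      rw [if_neg]
      rintro rfl
      exact hs' (by group)
    · intro h
      exact absurd (Finset.mem_univ _) h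
  calc cor c S l (t * a) = ∑ u, ∑ v, S u v • (l u * df c l (v * t) a) := by
        simp only [cor, h2]
    _ = ∑ u, ∑ v, S u (v * t⁻¹) • (l u * df c l v a) := by
        refine Finset.sum_congr rfl fun u _ => ?_
        rw [← Equiv.sum_comp (Equiv.mulRight t) (fun v => S u (v * t⁻¹) • (l u * df c l v a))]
        simp only [Equiv.coe_mulRight, mul_inv_cancel_right]
    _ = ∑ u, ∑ v, S (t⁻¹ * u) v • (l u * df c l v a) := by simp only [h3]
    _ = ∑ u, ∑ v, S u v • (l (t * u) * df c l v a) := by
        rw [← Equiv.sum_comp (Equiv.mulLeft t) (fun u => ∑ v, S (t⁻¹ * u) v • (l u * df c l v a))]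
        simp only [Equiv.coe_mulLeft, inv_mul_cancel_left]
    _ = L t * cor c S l a := by
        simp only [cor, (hL t htT _).1, Finset.mul_sum, Algebra.mul_smul_comm, mul_assoc]

theorem cor_inv (φ : 𝔸 →ₐ[R] 𝔸) (α : MulAut N) (hc : ∀ a b r, c (α a) (α b) (α r) = c a b r)
    (hS : ∀ a b, S (α a) (α b) = S a b) (hl : ∀ a, l (α a) = φ (l a)) (a : N) :
    cor c S l (α a) = φ (cor c S l a) := by
  have h1 : ∀ v, df c l (α v) (α a) = φ (df c l v a) := by
    intro v
    simp only [df, map_sub, map_sum, map_smul, map_mul, hl]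
    congr 1
    rw [← Equiv.sum_comp α.toEquiv]
    refine Finset.sum_congr rfl fun s _ => ?_
    show c (α v) (α a) (α s) • l (α s) = c v a s • φ (l s)
    rw [hc, hl]
  simp only [cor, map_sum, map_smul, map_mul]
  rw [← Equiv.sum_comp α.toEquiv]
  refine Finset.sum_congr rfl fun u _ => ?_
  rw [← Equiv.sum_comp α.toEquiv]
  refine Finset.sum_congr rfl fun v _ => ?_
  show S (α u) (α v) • (l (α u) * df c l (α v) (α a)) = _
  rw [hS, hl, h1]

end Pool.Agent.Helper41.TDC
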