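import Pool.Agent.Helper41.TDC.Base
import Pool.Agent.Helper41.TDC.StepT

/-!
# Project TD (MP_5ecade_al), TDC-06 ApStep: the step of the lifting in coordinates
-/

set_option autoImplicit false

namespace Pool.Agent.Helper41.TDC

open Pool.Agent.Helper81.TD

variable {N : Type} [Group N] [Fintype N] [DecidableEq N] {R : Type} [CommRing R]
  {T : Subgroup N} {A : Set (MulAut N)} {c Γ : N → N → N → R}

/-- `l` is a homomorphism modulo `e` from the algebra with structure constants `c` to the one with structure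
constants `Γ`, compatible with the unit, the torus and the automorphisms -/
structure Ap (T : Subgroup N) (A : Set (MulAut N)) (c Γ : N → N → N → R) (e : R)
    (l : N → N → R) : Prop where
  one : ∀ r, l 1 r = if r = 1 then 1 else 0
  tor : ∀ t ∈ T, ∀ a r, l (t * a) (t * r) = l a r ∧ l (a * t) (r * t) = l a r
  inv : ∀ α ∈ A, ∀ a r, l (α a) (α r) = l a r
  mul : ∀ a b r, e ∣ (∑ s, c a b s * l s r) - ∑ i, ∑ j, l a i * l b j * Γ i j r

theorem Lm_Lv (h1 : Asc Γ) (h2 : TTr T Γ) {t : N} (ht : t ∈ T) (x : N → R) :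
    Lm Γ t * Lv Γ x = Lv Γ (fun r => x (t⁻¹ * r)) := by
  simp only [Lv, Finset.mul_sum, Matrix.mul_smul, (Lm_tmul h1 h2 ht _).1]
  rw [← Equiv.sum_comp (Equiv.mulLeft t) (fun a => x (t⁻¹ * a) • Lm Γ a)]
  simp only [Equiv.coe_mulLeft, inv_mul_cancel_left]

theorem Lv_Lm (h1 : Asc Γ) (h2 : TTr T Γ) {t : N} (ht : t ∈ T) (x : N → R) :
    Lv Γ x * Lm Γ t = Lv Γ (fun r => x (r * t⁻¹)) := by
  simp only [Lv, Finset.sum_mul, Matrix.smul_mul, (Lm_tmul h1 h2 ht _).2]
  rw [← Equiv.sum_comp (Equiv.mulRight t) (fun a => x (a * t⁻¹) • Lm Γ a)]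
  simp only [Equiv.coe_mulRight, mul_inv_cancel_right]

theorem df_Lv (h1 : Asc Γ) (l : N → N → R) (a b : N) : df c (fun x => Lv Γ (l x)) a b =
    Lv Γ (fun r => (∑ s, c a b s * l s r) - ∑ i, ∑ j, l a i * l b j * Γ i j r) := by
  have h3 : ∑ s, c a b s • Lv Γ (l s) = Lv Γ (fun r => ∑ s, c a b s * l s r) := by
    simp only [Lv, Finset.smul_sum, Finset.sum_smul, smul_smul]
    exact Finset.sum_comm
  simp only [df]
  rw [h3, Lv_mul h1]
  simp only [Lv, sub_smul, Finset.sum_sub_distrib]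

theorem Lv_dv {e : R} {x : N → R} (h : ∀ r, e ∣ x r) : Dv e (Lv Γ x) := by
  choose y hy using h
  refine ⟨Lv Γ y, ?_⟩
  simp only [Lv, Finset.smul_sum, smul_smul, hy]

theorem ap_step (hc : Asc c) (hcT : TTr T c) (hcA : Inv A c) (hΓ : Asc Γ) (hΓT : TTr T Γ)
    (hΓA : Inv A Γ) {S : N → N → R} (hS : Sep A c S) {e : R} {l : N → N → R}
    (h : Ap T A c Γ e l) : ∃ l', Ap T A c Γ (e * e) l' ∧ ∀ a r, e ∣ l' a r - l a r := by
  set m : N → Matrix N N R := fun a => Lv Γ (l a) with hm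
  have hm1 : m 1 = 1 := by
    have h2 : l 1 = fun r => if r = 1 then 1 else 0 := funext h.one
    simp only [hm, h2, Lv, ite_smul, one_smul, zero_smul, Finset.sum_ite_eq', Finset.mem_univ,
      if_true, Lm_one hΓT]
  have hmT : ∀ t ∈ T, ∀ a, m (t * a) = Lm Γ t * m a ∧ m (a * t) = m a * Lm Γ t := by
    intro t ht a
    simp only [hm]
    rw [Lm_Lv hΓ hΓT ht, Lv_Lm hΓ hΓT ht]
    constructor
    · congr 1
      funext r
      rw [← (h.tor t ht a (t⁻¹ * r)).1, mul_inv_cancel_left]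
    · congr 1
      funext r
      rw [← (h.tor t ht a (r * t⁻¹)).2, inv_mul_cancel_right]
  have hmA : ∀ α ∈ A, ∀ a, m (α a) = (ph R α : Matrix N N R →ₐ[R] Matrix N N R) (m a) := by
    intro α hα a
    exact (ph_Lv hΓA hα (l a) (l (α a)) fun r => h.inv α hα a r).symm
  have hd : ∀ a b, Dv e (df c m a b) := by
    intro a b
    rw [hm, df_Lv hΓ]
    exact Lv_dv fun r => h.mul a b r
  have hW : ∀ a, m a ∈ Wa hΓ hΓT := fun a => Lv_mem_Wa _ _ _
  have hdW : ∀ a b, df c m a b ∈ Wa hΓ hΓT := fun a b =>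
    sub_mem (sum_mem fun s _ => Subalgebra.smul_mem _ (hW s) _) (mul_mem (hW a) (hW b))
  have hcW : ∀ a, cor c S m a ∈ Wa hΓ hΓT := fun a =>
    sum_mem fun u _ => sum_mem fun v _ => Subalgebra.smul_mem _ (mul_mem (hW u) (hdW v a)) _
  set l' : N → N → R := fun a r => (m a + cor c S m a) r 1 with hl'
  have hl'' : ∀ a, m a + cor c S m a = Lv Γ (l' a) := fun a =>
    eq_Lv_of_mem (add_mem (hW a) (hcW a))
  have hma : ∀ a r, m a r 1 = l a r := fun a r => Lv_one hΓT (l a) r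
  refine ⟨l', ⟨?_, ?_, ?_, ?_⟩, ?_⟩
  · intro r
    show (m 1 + cor c S m 1) r 1 = _
    rw [cor_one hcT hm1, add_zero, hma, h.one]
  · intro t ht a r
    constructor
    · have h3 : Lv Γ (l' (t * a)) = Lv Γ (fun r => l' a (t⁻¹ * r)) := by
        rw [← hl'', (hmT t ht a).1, cor_left hc hcT hS.comm (Lm Γ) hmT ht, ← mul_add, hl'',
          Lm_Lv hΓ hΓT ht]
      have h4 := congrFun (Lv_inj hΓT h3) (t * r)
      simpa using h4
    · have h3 : Lv Γ (l' (a * t)) = Lv Γ (fun r => l' a (r * t⁻¹)) := by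
        rw [← hl'', (hmT t ht a).2, cor_right hc hcT (Lm Γ) hmT ht, ← add_mul, hl'',
          Lv_Lm hΓ hΓT ht]
      have h4 := congrFun (Lv_inj hΓT h3) (r * t)
      simpa using h4
  · intro α hα a r
    have h3 : Lv Γ (l' (α a)) = Lv Γ (fun r => l' a (α⁻¹ r)) := by
      rw [← hl'', hmA α hα, cor_inv _ α (hcA α hα) (hS.inv α hα) (hmA α hα), ← map_add, hl'']
      exact ph_Lv hΓA hα _ _ fun r => by simp
    have h4 := congrFun (Lv_inj hΓT h3) (α r)
    simpa using h4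
  · intro a b r
    obtain ⟨y, hy⟩ := step hc hS.comm hS.one hm1 e hd a b
    have h3 : (fun x => m x + cor c S m x) = fun x => Lv Γ (l' x) := funext hl''
    rw [h3, df_Lv hΓ] at hy
    have h4 := congrFun (congrFun hy r) 1
    rw [Lv_one hΓT] at h4
    exact ⟨y r 1, h4⟩
  · intro a r
    obtain ⟨y, hy⟩ := cor_dv (S := S) hd a
    refine ⟨y r 1, ?_⟩
    show (m a + cor c S m a) r 1 - l a r = e * y r 1
    rw [Matrix.add_apply, hma, hy]
    simp

end Pool.Agent.Helper41.TDC
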