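import Pool.Agent.Helper81.TD.Defs

/-!
# Project TD (MP_5ecade_al), blocks C and D (helper41): left multiplications as matrices

`Lm Γ a` is the matrix of the left multiplication with the basis vector `e_a` in the algebra with
structure constants `Γ`, `Lv Γ x` the one with `∑ x_a e_a`.  `ph α` is the automorphism of the
matrix ring given by the permutation `α` of the basis.
-/

set_option autoImplicit false

namespace Pool.Agent.Helper41.TDC

open Pool.Agent.Helper81.TD

variable {N : Type} [Group N] [Fintype N] [DecidableEq N] {R : Type} [CommRing R]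
  {Γ : N → N → N → R} {T : Subgroup N} {A : Set (MulAut N)}

/-- left multiplication with `e_a` -/
def Lm (Γ : N → N → N → R) (a : N) : Matrix N N R := Matrix.of fun r b => Γ a b r

/-- left multiplication with `x` -/
def Lv (Γ : N → N → N → R) (x : N → R) : Matrix N N R := ∑ a, x a • Lm Γ a

theorem Lm_apply (a r b : N) : Lm Γ a r b = Γ a b r := rfl

theorem Lv_entry (x : N → R) (r b : N) : Lv Γ x r b = ∑ a, x a * Γ a b r := by
  simp only [Lv, Matrix.sum_apply, Matrix.smul_apply, Lm_apply, smul_eq_mul]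

theorem Lm_mul (h : Asc Γ) (a b : N) : Lm Γ a * Lm Γ b = ∑ s, Γ a b s • Lm Γ s := by
  ext r d
  simp only [Matrix.mul_apply, Matrix.sum_apply, Matrix.smul_apply, Lm_apply, smul_eq_mul]
  rw [h a b d r]
  exact Finset.sum_congr rfl fun s _ => mul_comm _ _

theorem Lv_mul (h : Asc Γ) (x y : N → R) :
    Lv Γ x * Lv Γ y = Lv Γ (fun r => ∑ i, ∑ j, x i * y j * Γ i j r) := by
  simp only [Lv, Finset.sum_mul_sum, Finset.sum_smul]
  have h1 : ∀ i j, (x i • Lm Γ i) * (y j • Lm Γ j) = ∑ s, (x i * y j * Γ i j s) • Lm Γ s := by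
    intro i j
    rw [Matrix.smul_mul, Matrix.mul_smul, Lm_mul h, smul_smul, Finset.smul_sum]
    exact Finset.sum_congr rfl fun s _ => smul_smul _ _ _
  simp only [h1]
  rw [Finset.sum_comm' (t' := Finset.univ) (s' := fun _ => Finset.univ) (by simp)]
  conv_rhs => rw [Finset.sum_comm]
  rw [Finset.sum_comm]
  refine Finset.sum_congr rfl fun i _ => ?_
  exact Finset.sum_comm

theorem Lm_one (h : TTr T Γ) : Lm Γ 1 = 1 := by
  ext r b
  rw [Lm_apply, (h 1 T.one_mem b r).1, one_mul, Matrix.one_apply]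

theorem Lm_tmul (h1 : Asc Γ) (h : TTr T Γ) {t : N} (ht : t ∈ T) (a : N) :
    Lm Γ t * Lm Γ a = Lm Γ (t * a) ∧ Lm Γ a * Lm Γ t = Lm Γ (a * t) := by
  constructor
  · rw [Lm_mul h1]
    simp only [(h t ht a _).1, ite_smul, one_smul, zero_smul, Finset.sum_ite_eq', Finset.mem_univ,
      if_true]
  · rw [Lm_mul h1]
    simp only [(h t ht a _).2, ite_smul, one_smul, zero_smul, Finset.sum_ite_eq', Finset.mem_univ,
      if_true]

theorem Lv_one (h : TTr T Γ) (x : N → R) (r : N) : Lv Γ x r 1 = x r := by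
  rw [Lv_entry]
  simp only [(h 1 T.one_mem _ r).2, mul_one, mul_ite, mul_zero, Finset.sum_ite_eq, Finset.mem_univ,
    if_true]

theorem Lv_inj (h : TTr T Γ) {x y : N → R} (hxy : Lv Γ x = Lv Γ y) : x = y := by
  funext r
  rw [← Lv_one h x r, ← Lv_one h y r, hxy]

/-- the permutation of the basis by `α` as an automorphism of the matrix ring -/
def ph (R : Type) [CommRing R] (α : MulAut N) : Matrix N N R ≃ₐ[R] Matrix N N R :=
  Matrix.reindexAlgEquiv R R α.toEquiv

theorem ph_apply (α : MulAut N) (x : Matrix N N R) (r b : N) : ph R α x (α r) (α b) = x r b := by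
  show x (α.toEquiv.symm (α r)) (α.toEquiv.symm (α b)) = x r b
  rw [show α.toEquiv.symm (α r) = r from α.toEquiv.symm_apply_apply r,
    show α.toEquiv.symm (α b) = b from α.toEquiv.symm_apply_apply b]

theorem ph_Lm (h : Inv A Γ) {α : MulAut N} (hα : α ∈ A) (a : N) : ph R α (Lm Γ a) = Lm Γ (α a) := by
  ext r b
  obtain ⟨r, rfl⟩ := α.surjective r
  obtain ⟨b, rfl⟩ := α.surjective b
  rw [ph_apply, Lm_apply, Lm_apply, h α hα]

theorem ph_Lv (h : Inv A Γ) {α : MulAut N} (hα : α ∈ A) (x y : N → R) (hxy : ∀ r, y (α r) = x r) :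
    ph R α (Lv Γ x) = Lv Γ y := by
  simp only [Lv, map_sum, map_smul, ph_Lm h hα]
  rw [← Equiv.sum_comp α.toEquiv (fun a => y a • Lm Γ a)]
  exact Finset.sum_congr rfl fun a _ => by
    show x a • Lm Γ (α a) = y (α a) • Lm Γ (α a)
    rw [hxy]

/-- the subalgebra of the left multiplications -/
def Wa (h1 : Asc Γ) (h2 : TTr T Γ) : Subalgebra R (Matrix N N R) where
  carrier := {x | ∃ w, x = Lv Γ w}
  mul_mem' := by
    rintro _ _ ⟨x, rfl⟩ ⟨y, rfl⟩
    exact ⟨_, Lv_mul h1 x y⟩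
  add_mem' := by
    rintro _ _ ⟨x, rfl⟩ ⟨y, rfl⟩
    refine ⟨fun r => x r + y r, ?_⟩
    simp only [Lv, add_smul, Finset.sum_add_distrib]
  algebraMap_mem' := by
    intro r
    refine ⟨fun a => if a = 1 then r else 0, ?_⟩
    simp only [Lv, ite_smul, zero_smul, Finset.sum_ite_eq', Finset.mem_univ, if_true, Lm_one h2,
      Algebra.algebraMap_eq_smul_one]

theorem mem_Wa {h1 : Asc Γ} {h2 : TTr T Γ} {x : Matrix N N R} :
    x ∈ Wa h1 h2 ↔ ∃ w, x = Lv Γ w := Iff.rfl

theorem Lv_mem_Wa (h1 : Asc Γ) (h2 : TTr T Γ) (x : N → R) : Lv Γ x ∈ Wa h1 h2 := ⟨x, rfl⟩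

theorem Lm_mem_Wa (h1 : Asc Γ) (h2 : TTr T Γ) (a : N) : Lm Γ a ∈ Wa h1 h2 := by
  refine ⟨fun r => if r = a then 1 else 0, ?_⟩
  simp only [Lv, ite_smul, one_smul, zero_smul, Finset.sum_ite_eq', Finset.mem_univ, if_true]

theorem eq_Lv_of_mem {h1 : Asc Γ} {h2 : TTr T Γ} {x : Matrix N N R} (hx : x ∈ Wa h1 h2) :
    x = Lv Γ (fun r => x r 1) := by
  obtain ⟨w, rfl⟩ := hx
  congr 1
  funext r
  rw [Lv_one h2]

end Pool.Agent.Helper41.TDC
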