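import Pool.Agent.Helper41.TDC.Base

/-!
# Project TD (MP_5ecade_al), block D: from a Casimir element to a separability element

If `∑ S a b • e_a ⊗ e_b` commutes with the algebra and `Z = ∑ S a b • e_a e_b` is invertible, then
`∑ S a b • e_a ⊗ e_b Z⁻¹` is a separability element.
-/

set_option autoImplicit false

namespace Pool.Agent.Helper41.TDC

open Pool.Agent.Helper81.TD

variable {N : Type} [Group N] [Fintype N] [DecidableEq N] {R : Type} [CommRing R]
  {c : N → N → N → R} {T : Subgroup N} {A : Set (MulAut N)} {S : N → N → R}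

/-- the product of the two factors of the Casimir element -/
def Zc (c : N → N → N → R) (S : N → N → R) : Matrix N N R :=
  ∑ x, ∑ y, S x y • (Lm c x * Lm c y)

theorem Zc_comm (hc : Asc c) (hs : ∀ a x y, ∑ s, S s y * c a s x = ∑ s, S x s * c s a y) (a : N) :
    Lm c a * Zc c S = Zc c S * Lm c a := by
  have e1 : Lm c a * Zc c S = ∑ x, ∑ y, (∑ s, S s y * c a s x) • (Lm c x * Lm c y) := by
    simp only [Zc, Finset.mul_sum, Matrix.mul_smul, ← mul_assoc, Lm_mul hc a, Finset.sum_mul,
      Matrix.smul_mul, Finset.smul_sum, smul_smul, Finset.sum_smul]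
    calc ∑ s, ∑ y, ∑ x, (S s y * c a s x) • (Lm c x * Lm c y)
        = ∑ s, ∑ x, ∑ y, (S s y * c a s x) • (Lm c x * Lm c y) :=
          Finset.sum_congr rfl fun s _ => Finset.sum_comm
      _ = ∑ x, ∑ s, ∑ y, (S s y * c a s x) • (Lm c x * Lm c y) := Finset.sum_comm
      _ = _ := Finset.sum_congr rfl fun x _ => Finset.sum_comm
  have e2 : Zc c S * Lm c a = ∑ x, ∑ y, (∑ s, S x s * c s a y) • (Lm c x * Lm c y) := by
    simp only [Zc, Finset.sum_mul, Matrix.smul_mul, mul_assoc, Lm_mul hc _ a, Finset.mul_sum,
      Matrix.mul_smul, Finset.smul_sum, smul_smul, Finset.sum_smul]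
    exact Finset.sum_congr rfl fun x _ => Finset.sum_comm
  rw [e1, e2]
  refine Finset.sum_congr rfl fun x _ => Finset.sum_congr rfl fun y _ => ?_
  rw [hs a x y]

theorem Zc_mem (hc : Asc c) (hcT : TTr T c) : Zc c S ∈ Wa hc hcT :=
  sum_mem fun x _ => sum_mem fun y _ => Subalgebra.smul_mem _
    (mul_mem (Lm_mem_Wa _ _ x) (Lm_mem_Wa _ _ y)) _

/-- the separability element -/
def Sc (c : N → N → N → R) (S : N → N → R) (W : Matrix N N R) (a b : N) : R :=
  ∑ y, S a y * (Lm c y * W) b 1

theorem sep_of_cas (hc : Asc c) (hcT : TTr T c) (hcA : Inv A c)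
    (hs : ∀ a x y, ∑ s, S s y * c a s x = ∑ s, S x s * c s a y)
    (hA : ∀ α ∈ A, ∀ a b, S (α a) (α b) = S a b) {W : Matrix N N R} (h1 : Zc c S * W = 1)
    (h2 : W * Zc c S = 1) : Sep A c (Sc c S W) := by
  -- `W` commutes with the left multiplications
  have hW : ∀ a, Lm c a * W = W * Lm c a := by
    intro a
    calc Lm c a * W = W * Zc c S * (Lm c a * W) := by rw [h2, one_mul]
      _ = W * (Zc c S * Lm c a) * W := by simp only [mul_assoc]
      _ = W * (Lm c a * Zc c S) * W := by rw [Zc_comm hc hs]
      _ = W * Lm c a * (Zc c S * W) := by simp only [mul_assoc]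
      _ = W * Lm c a := by rw [h1, mul_one]
  -- `W` is itself a left multiplication
  have hWm : W ∈ Wa hc hcT := by
    have h3 : Zc c S * Lv c (fun r => W r 1) = 1 := by
      have h4 : Zc c S * Lv c (fun r => W r 1) ∈ Wa hc hcT := mul_mem (Zc_mem hc hcT)
        (Lv_mem_Wa _ _ _)
      rw [eq_Lv_of_mem h4]
      have h5 : (fun r => (Zc c S * Lv c (fun r => W r 1)) r 1) =
          fun r => (1 : Matrix N N R) r 1 := by
        funext r
        rw [← h1, Matrix.mul_apply, Matrix.mul_apply]
        refine Finset.sum_congr rfl fun s _ => ?_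
        rw [Lv_one hcT]
      rw [h5]
      have h6 : (1 : Matrix N N R) ∈ Wa hc hcT := one_mem _
      exact (eq_Lv_of_mem h6).symm
    have h4 : W = Lv c (fun r => W r 1) := by
      calc W = W * (Zc c S * Lv c (fun r => W r 1)) := by rw [h3, mul_one]
        _ = Lv c (fun r => W r 1) := by rw [← mul_assoc, h2, one_mul]
    exact ⟨_, h4⟩
  have hV : ∀ y b a, (Lm c y * W) b a = ∑ s, (Lm c y * W) s 1 * c s a b := by
    intro y b a
    have h3 : Lm c y * W ∈ Wa hc hcT := mul_mem (Lm_mem_Wa _ _ y) hWm
    conv_lhs => rw [eq_Lv_of_mem h3]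
    rw [Lv_entry]
  refine ⟨fun a x y => ?_, fun r => ?_, fun α hα a b => ?_⟩
  · have e1 : ∑ s, Sc c S W s y * c a s x = ∑ s, S x s * (Lm c s * Lm c a * W) y 1 := by
      calc ∑ s, Sc c S W s y * c a s x
          = ∑ z, (∑ s, S s z * c a s x) * (Lm c z * W) y 1 := by
            simp only [Sc, Finset.sum_mul]
            rw [Finset.sum_comm]
            refine Finset.sum_congr rfl fun z _ => Finset.sum_congr rfl fun s _ => ?_
            ring
        _ = ∑ z, (∑ s, S x s * c s a z) * (Lm c z * W) y 1 := by simp only [hs a x]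
        _ = ∑ s, S x s * (Lm c s * Lm c a * W) y 1 := by
            simp only [Lm_mul hc _ a, Finset.sum_mul, Matrix.smul_mul, Matrix.sum_apply,
              Matrix.smul_apply, smul_eq_mul, Finset.mul_sum]
            rw [Finset.sum_comm]
            refine Finset.sum_congr rfl fun z _ => Finset.sum_congr rfl fun s _ => ?_
            ring
    have e2 : ∑ s, Sc c S W x s * c s a y = ∑ z, S x z * (Lm c z * W * Lm c a) y 1 := by
      calc ∑ s, Sc c S W x s * c s a y
          = ∑ z, S x z * ∑ s, (Lm c z * W) s 1 * c s a y := by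
            simp only [Sc, Finset.sum_mul, Finset.mul_sum]
            rw [Finset.sum_comm]
            refine Finset.sum_congr rfl fun z _ => Finset.sum_congr rfl fun s _ => ?_
            ring
        _ = ∑ z, S x z * (Lm c z * W * Lm c a) y 1 := by
            refine Finset.sum_congr rfl fun z _ => ?_
            have h5 : (Lm c z * W * Lm c a) y 1 = (Lm c z * W) y a := by
              rw [Matrix.mul_apply, Finset.sum_eq_single a]
              · rw [Lm_apply, (hcT 1 T.one_mem a a).2, mul_one, if_pos rfl, mul_one]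
              · intro s _ hs'
                rw [Lm_apply, (hcT 1 T.one_mem a s).2, mul_one, if_neg hs', mul_zero]
              · intro h
                exact absurd (Finset.mem_univ _) h
            rw [← hV, h5]
    rw [e1, e2]
    refine Finset.sum_congr rfl fun z _ => ?_
    rw [mul_assoc, hW, mul_assoc]
  · have e1 : ∑ a, ∑ b, Sc c S W a b * c a b r = (Zc c S * W) r 1 := by
      calc ∑ a, ∑ b, Sc c S W a b * c a b r
          = ∑ a, ∑ y, S a y * ∑ b, c a b r * (Lm c y * W) b 1 := by
            refine Finset.sum_congr rfl fun a _ => ?_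
            simp only [Sc, Finset.sum_mul, Finset.mul_sum]
            rw [Finset.sum_comm]
            refine Finset.sum_congr rfl fun y _ => Finset.sum_congr rfl fun b _ => ?_
            ring
        _ = (Zc c S * W) r 1 := by
            simp only [Zc, Finset.sum_mul, Matrix.smul_mul, Matrix.sum_apply, Matrix.smul_apply,
              smul_eq_mul, mul_assoc]
            refine Finset.sum_congr rfl fun a _ => Finset.sum_congr rfl fun y _ => ?_
            rw [Matrix.mul_apply]
            rfl
    rw [e1, h1, Matrix.one_apply]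
  · have hZ : ph R α (Zc c S) = Zc c S := by
      simp only [Zc, map_sum, map_smul, map_mul, ph_Lm hcA hα]
      rw [← Equiv.sum_comp α.toEquiv (fun x => ∑ y, S x y • (Lm c x * Lm c y))]
      refine Finset.sum_congr rfl fun x _ => ?_
      rw [← Equiv.sum_comp α.toEquiv (fun y => S (α.toEquiv x) y • (Lm c (α.toEquiv x) * Lm c y))]
      refine Finset.sum_congr rfl fun y _ => ?_
      show S x y • (Lm c (α x) * Lm c (α y)) = S (α x) (α y) • (Lm c (α x) * Lm c (α y))
      rw [hA α hα]
    have hW' : ph R α W = W := by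
      have h3 : Zc c S * ph R α W = 1 := by
        rw [← hZ, ← map_mul, h1, map_one]
      calc ph R α W = W * Zc c S * ph R α W := by rw [h2, one_mul]
        _ = W := by rw [mul_assoc, h3, mul_one]
    have hV' : ∀ y, (Lm c (α y) * W) (α b) 1 = (Lm c y * W) b 1 := by
      intro y
      have h3 : ph R α (Lm c y * W) = Lm c (α y) * W := by
        rw [map_mul, ph_Lm hcA hα, hW']
      rw [← h3]
      conv_lhs => rw [← map_one α]
      exact ph_apply α _ _ _
    show ∑ y, S (α a) y * (Lm c y * W) (α b) 1 = ∑ y, S a y * (Lm c y * W) b 1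
    rw [← Equiv.sum_comp α.toEquiv (fun y => S (α a) y * (Lm c y * W) (α b) 1)]
    refine Finset.sum_congr rfl fun y _ => ?_
    show S (α a) (α y) * (Lm c (α y) * W) (α b) 1 = _
    rw [hA α hα, hV']

end Pool.Agent.Helper41.TDC
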