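import Pool.Agent.Helper81.TD.Defs

/-!
# Project TD (MP_5ecade_al), TDC-03 Gpd: isomorphisms can be inverted, composed and mapped

PROOF. In matrix notation `X Y = Y X = 1` (`left`, `right`).
`iso_map`: apply the ring homomorphism `f` to all equations.
`iso_symm`. `mul`: by `mul` of `h` for all `i, j, r'`: `∑ s, c i j s * X s r' = ∑ i', ∑ j', X i i' * X j j' * d i' j' r'`; multiply with
`Y a i * Y b j` and sum over `i, j`: by `right` the right side becomes `d a b r'`. So
`d a b r' = ∑ s, (∑ i, ∑ j, Y a i * Y b j * c i j s) * X s r'`; multiply with `Y r' r` and sum over `r'` (`left`).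
`tor`: for `t ∈ T` the matrix `Y' a r = Y (t * a) (t * r)` satisfies `∑ s, X a s * Y' s b = ∑ s, X (t * a) (t * s) * Y (t * s) (t * b)
= (if t * a = t * b ..)` (reindex `s ↦ t * s`), so it is an inverse of `X` too, and `Y' = Y` (uniqueness of the inverse of a
square matrix, `Matrix.inv_eq_right_inv` or multiply `X Y' = 1` with `Y` on the left). The same for right multiplication and for `inv`
(`Equiv.sum_comp α.toEquiv`). `one`: `∑ s, X 1 s * Y s r = Y 1 r` because `X 1 s = (if s = 1 ..)`.
`iso_trans`: `X'' = X * X'`, `Y'' = Y' * Y`. `mul`: `∑ s, c a b s * (∑ x, X s x * X' x r) = ∑ x, (∑ i, ∑ j, X a i * X b j * d i j x) * X' x r`, and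
`∑ x, d i j x * X' x r = ∑ i', ∑ j', X' i i' * X' j j' * e i' j' r`. `tor`, `inv`: reindex the sum.
-/

set_option autoImplicit false

namespace Pool.Agent.Helper41.TDC

open Pool.Agent.Helper81.TD

variable {N : Type} [Group N] [Fintype N] [DecidableEq N] {R R' : Type} [CommRing R] [CommRing R']
  {T : Subgroup N} {A : Set (MulAut N)} {c d e : N → N → N → R} {X Y X' Y' : N → N → R}

/-- the matrix of the structure constants -/
private def Cm (c : N → N → N → R) (r : N) : Matrix N N R := Matrix.of fun i j => c i j r

private theorem bil (X E : Matrix N N R) (a b : N) :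
    (X * E * X.transpose) a b = ∑ i, ∑ j, X a i * X b j * E i j := by
  simp only [Matrix.mul_apply, Matrix.transpose_apply, Finset.sum_mul]
  rw [Finset.sum_comm]
  exact Finset.sum_congr rfl fun i _ => Finset.sum_congr rfl fun j _ => by ring

private theorem mulIff (c d : N → N → N → R) (X : N → N → R) :
    (∀ a b r, ∑ s, c a b s * X s r = ∑ i, ∑ j, X a i * X b j * d i j r) ↔
      ∀ r, ∑ s, X s r • Cm c s = Matrix.of X * Cm d r * (Matrix.of X).transpose := by
  have key : ∀ a b r, ((∑ s, X s r • Cm c s) a b = ∑ s, c a b s * X s r) := by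
    intro a b r
    rw [Matrix.sum_apply]
    exact Finset.sum_congr rfl fun s _ => mul_comm _ _
  constructor
  · intro h r
    ext a b
    rw [key, bil, h]
    rfl
  · intro h a b r
    rw [← key, h, bil]
    rfl

private theorem left_iff (X Y : N → N → R) :
    (∀ a b, ∑ s, X a s * Y s b = if a = b then 1 else 0) ↔ Matrix.of X * Matrix.of Y = 1 := by
  constructor
  · intro h
    ext a b
    rw [Matrix.mul_apply, Matrix.one_apply]
    exact h a b
  · intro h a b
    have h1 := congrFun (congrFun h a) b
    rw [Matrix.mul_apply, Matrix.one_apply] at h1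
    exact h1

private theorem one_step {X Y : N → N → R}
    (hr : ∀ a b, ∑ s, Y a s * X s b = if a = b then 1 else 0) (a : N) (G : N → R) :
    ∑ i, Y a i * (∑ i', X i i' * G i') = G a := by
  have h1 : ∑ i, Y a i * (∑ i', X i i' * G i') = ∑ i', (∑ i, Y a i * X i i') * G i' := by
    simp only [Finset.mul_sum, Finset.sum_mul]
    rw [Finset.sum_comm]
    exact Finset.sum_congr rfl fun i _ => Finset.sum_congr rfl fun j _ => by ring
  rw [h1]
  simp only [hr, ite_mul, one_mul, zero_mul]
  rw [Finset.sum_ite_eq]
  simp

private theorem inv_perm {X Y : N → N → R}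
    (hl : ∀ a b, ∑ s, X a s * Y s b = if a = b then 1 else 0)
    (hr : ∀ a b, ∑ s, Y a s * X s b = if a = b then 1 else 0) (σ : Equiv.Perm N)
    (hσ : ∀ a s, X (σ a) (σ s) = X a s) (a r : N) : Y (σ a) (σ r) = Y a r := by
  have h1 := one_step hr a (fun s => Y (σ s) (σ r))
  rw [← h1]
  have h2 : ∀ i, ∑ i', X i i' * Y (σ i') (σ r) = if i = r then 1 else 0 := by
    intro i
    have h3 : ∑ i', X i i' * Y (σ i') (σ r) = ∑ i', X (σ i) (σ i') * Y (σ i') (σ r) :=
      Finset.sum_congr rfl fun i' _ => by rw [hσ]
    rw [h3, Equiv.sum_comp σ (fun s => X (σ i) s * Y s (σ r)), hl]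
    simp only [σ.injective.eq_iff]
  simp only [h2, mul_ite, mul_one, mul_zero]
  rw [Finset.sum_ite_eq']
  simp

theorem iso_map (f : R →+* R') (h : Iso T A c d X Y) :
    Iso T A (fun a b r => f (c a b r)) (fun a b r => f (d a b r)) (fun a r => f (X a r))
      (fun a r => f (Y a r)) := by
  refine ⟨?_, ?_, ?_, ?_, ?_, ?_⟩
  · intro a b r
    have h1 := congrArg f (h.mul a b r)
    simpa only [map_sum, map_mul] using h1
  · intro a b
    have h1 := congrArg f (h.left a b)
    simpa only [map_sum, map_mul, apply_ite f, map_one, map_zero] using h1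
  · intro a b
    have h1 := congrArg f (h.right a b)
    simpa only [map_sum, map_mul, apply_ite f, map_one, map_zero] using h1
  · intro t ht a r
    exact ⟨congrArg f (h.tor t ht a r).1, congrArg f (h.tor t ht a r).2⟩
  · intro r
    have h1 := congrArg f (h.one r)
    simpa only [apply_ite f, map_one, map_zero] using h1
  · intro α hα a r
    exact congrArg f (h.inv α hα a r)

theorem iso_symm (h : Iso T A c d X Y) : Iso T A d c Y X := by
  have hL := (left_iff X Y).1 h.left
  have hR := (left_iff Y X).1 h.right
  refine ⟨?_, h.right, h.left, ?_, ?_, ?_⟩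
  · rw [mulIff]
    have hm := (mulIff c d X).1 h.mul
    have hD : ∀ r, Cm d r = ∑ s, X s r • (Matrix.of Y * Cm c s * (Matrix.of Y).transpose) := by
      intro r
      have h1 : Matrix.of Y * (∑ s, X s r • Cm c s) * (Matrix.of Y).transpose = Cm d r := by
        rw [hm r]
        calc Matrix.of Y * (Matrix.of X * Cm d r * (Matrix.of X).transpose) *
              (Matrix.of Y).transpose
            = (Matrix.of Y * Matrix.of X) * Cm d r * (Matrix.of Y * Matrix.of X).transpose := by
              rw [Matrix.transpose_mul]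
              simp only [Matrix.mul_assoc]
          _ = Cm d r := by
              rw [hR, Matrix.transpose_one, Matrix.one_mul, Matrix.mul_one]
      rw [← h1, Finset.mul_sum, Finset.sum_mul]
      exact Finset.sum_congr rfl fun s _ => by rw [Matrix.mul_smul, Matrix.smul_mul]
    intro r
    have h2 : ∑ s', Y s' r • Cm d s' =
        ∑ s, (∑ s', X s s' * Y s' r) • (Matrix.of Y * Cm c s * (Matrix.of Y).transpose) := by
      simp only [hD, Finset.smul_sum, Finset.sum_smul, smul_smul]
      rw [Finset.sum_comm]
      exact Finset.sum_congr rfl fun s _ => Finset.sum_congr rfl fun s' _ => by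
        rw [mul_comm]
    rw [h2]
    simp only [h.left, ite_smul, one_smul, zero_smul]
    rw [Finset.sum_ite_eq']
    simp
  · intro t ht a r
    exact ⟨inv_perm h.left h.right (Equiv.mulLeft t) (fun a s => (h.tor t ht a s).1) a r,
      inv_perm h.left h.right (Equiv.mulRight t) (fun a s => (h.tor t ht a s).2) a r⟩
  · intro r
    have h1 := h.left 1 r
    simp only [h.one, ite_mul, one_mul, zero_mul] at h1
    rw [Finset.sum_ite_eq'] at h1
    simp only [Finset.mem_univ, if_true] at h1
    rw [h1]
    simp only [eq_comm]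
  · intro α hα a r
    exact inv_perm h.left h.right α.toEquiv (fun a s => h.inv α hα a s) a r

theorem iso_trans (h : Iso T A c d X Y) (h' : Iso T A d e X' Y') :
    Iso T A c e (fun a r => ∑ s, X a s * X' s r) (fun a r => ∑ s, Y' a s * Y s r) := by
  have hL := (left_iff X Y).1 h.left
  have hR := (left_iff Y X).1 h.right
  have hL' := (left_iff X' Y').1 h'.left
  have hR' := (left_iff Y' X').1 h'.right
  have eX : Matrix.of (fun a r => ∑ s, X a s * X' s r) = Matrix.of X * Matrix.of X' := by
    ext a b
    rw [Matrix.mul_apply]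
    rfl
  have eY : Matrix.of (fun a r => ∑ s, Y' a s * Y s r) = Matrix.of Y' * Matrix.of Y := by
    ext a b
    rw [Matrix.mul_apply]
    rfl
  refine ⟨?_, ?_, ?_, ?_, ?_, ?_⟩
  · rw [mulIff]
    have hm := (mulIff c d X).1 h.mul
    have hm' := (mulIff d e X').1 h'.mul
    intro r
    rw [eX]
    have h1 : ∑ s, (∑ x, X s x * X' x r) • Cm c s = ∑ x, X' x r • ∑ s, X s x • Cm c s := by
      simp only [Finset.smul_sum, Finset.sum_smul, smul_smul]
      rw [Finset.sum_comm]
      exact Finset.sum_congr rfl fun s _ => Finset.sum_congr rfl fun s' _ => by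
        rw [mul_comm]
    rw [h1]
    simp only [hm]
    have h2 : ∑ x, X' x r • (Matrix.of X * Cm d x * (Matrix.of X).transpose) =
        Matrix.of X * (∑ x, X' x r • Cm d x) * (Matrix.of X).transpose := by
      rw [Finset.mul_sum, Finset.sum_mul]
      exact Finset.sum_congr rfl fun s _ => by rw [Matrix.mul_smul, Matrix.smul_mul]
    rw [h2, hm' r, Matrix.transpose_mul]
    simp only [Matrix.mul_assoc]
  · rw [left_iff, eX, eY]
    calc Matrix.of X * Matrix.of X' * (Matrix.of Y' * Matrix.of Y)
        = Matrix.of X * (Matrix.of X' * Matrix.of Y') * Matrix.of Y := by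
          simp only [Matrix.mul_assoc]
      _ = 1 := by rw [hL', Matrix.mul_one, hL]
  · rw [left_iff, eX, eY]
    calc Matrix.of Y' * Matrix.of Y * (Matrix.of X * Matrix.of X')
        = Matrix.of Y' * (Matrix.of Y * Matrix.of X) * Matrix.of X' := by
          simp only [Matrix.mul_assoc]
      _ = 1 := by rw [hR, Matrix.mul_one, hR']
  · intro t ht a r
    constructor
    · show ∑ s, X (t * a) s * X' s (t * r) = ∑ s, X a s * X' s r
      rw [← Equiv.sum_comp (Equiv.mulLeft t) (fun s => X (t * a) s * X' s (t * r))]
      refine Finset.sum_congr rfl fun s _ => ?_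
      show X (t * a) (t * s) * X' (t * s) (t * r) = X a s * X' s r
      rw [(h.tor t ht a s).1, (h'.tor t ht s r).1]
    · show ∑ s, X (a * t) s * X' s (r * t) = ∑ s, X a s * X' s r
      rw [← Equiv.sum_comp (Equiv.mulRight t) (fun s => X (a * t) s * X' s (r * t))]
      refine Finset.sum_congr rfl fun s _ => ?_
      show X (a * t) (s * t) * X' (s * t) (r * t) = X a s * X' s r
      rw [(h.tor t ht a s).2, (h'.tor t ht s r).2]
  · intro r
    show ∑ s, X 1 s * X' s r = _
    simp only [h.one, ite_mul, one_mul, zero_mul]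
    rw [Finset.sum_ite_eq']
    simp only [Finset.mem_univ, if_true]
    exact h'.one r
  · intro α hα a r
    show ∑ s, X (α a) s * X' s (α r) = ∑ s, X a s * X' s r
    rw [← Equiv.sum_comp α.toEquiv (fun s => X (α a) s * X' s (α r))]
    refine Finset.sum_congr rfl fun s _ => ?_
    show X (α a) (α s) * X' (α s) (α r) = X a s * X' s r
    rw [h.inv α hα a s, h'.inv α hα s r]

end Pool.Agent.Helper41.TDC
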