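import Pool.Agent.Helper41.TDC.Nst
import Pool.Agent.Helper81.TD.Defs

/-!
# Project TD (MP_5ecade_al), TDC-02 IsoNst: transfer of isomorphisms of algebras

An isomorphism (`Iso`, see `Helper81/TD/Defs.lean`) over a nonzero `k`-algebra `E` between two algebras with
structure constants in the field `k` can be replaced by one over an algebraically closed field `Ω ⊇ k`.

PROOF. `nst` with `ι = (N × N) ⊕ (N × N)` (or `Bool × N × N`), the point given by `X` and `Y`. Every condition in
`Iso` is a polynomial equation over `k` in the entries of `X`, `Y`, e.g. for `mul` the polynomial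
`∑ s, C (c a b s) * X (inl (s, r)) - ∑ i, ∑ j, X (inl (a, i)) * X (inl (b, j)) * C (d i j r)`, for `left`
`(∑ s, X (inl (a, s)) * X (inr (s, b))) - (if a = b then 1 else 0)`. (Apply `nst` to each of them and use
`simp` with `map_sum`, `map_mul`, `MvPolynomial.aeval_X`, `MvPolynomial.aeval_C`, `sub_eq_zero`.)
-/

set_option autoImplicit false

namespace Pool.Agent.Helper41.TDC

open Pool.Agent.Helper81.TD

theorem iso_nst {N k E Ω : Type} [Group N] [Fintype N] [DecidableEq N] [Field k] [CommRing E]
    [Nontrivial E] [Algebra k E] [Field Ω] [IsAlgClosed Ω] [Algebra k Ω] {T : Subgroup N}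
    {A : Set (MulAut N)} (c d : N → N → N → k) {X Y : N → N → E}
    (h : Iso T A (fun a b r => algebraMap k E (c a b r)) (fun a b r => algebraMap k E (d a b r)) X Y) :
    ∃ X' Y' : N → N → Ω, Iso T A (fun a b r => algebraMap k Ω (c a b r))
      (fun a b r => algebraMap k Ω (d a b r)) X' Y' := by
  obtain ⟨y, hy⟩ := nst (k := k) (E := E) (Ω := Ω) (ι := (N × N) ⊕ (N × N))
    (Sum.elim (fun q => X q.1 q.2) (fun q => Y q.1 q.2))
  refine ⟨fun a b => y (Sum.inl (a, b)), fun a b => y (Sum.inr (a, b)), ?_, ?_, ?_, ?_, ?_, ?_⟩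
  · intro a b r
    have h1 := hy (∑ s, MvPolynomial.C (c a b s) * MvPolynomial.X (Sum.inl (s, r)) -
      ∑ i, ∑ j, MvPolynomial.X (Sum.inl (a, i)) * MvPolynomial.X (Sum.inl (b, j)) *
        MvPolynomial.C (d i j r)) (by
        simp only [map_sub, map_sum, map_mul, MvPolynomial.aeval_X, MvPolynomial.aeval_C,
          Sum.elim_inl]
        exact sub_eq_zero.2 (h.mul a b r))
    simp only [map_sub, map_sum, map_mul, MvPolynomial.aeval_X, MvPolynomial.aeval_C] at h1
    exact sub_eq_zero.1 h1
  · intro a b
    have h1 := hy ((∑ s, MvPolynomial.X (Sum.inl (a, s)) * MvPolynomial.X (Sum.inr (s, b))) -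
      (if a = b then 1 else 0)) (by
        simp only [map_sub, map_sum, map_mul, MvPolynomial.aeval_X, 
          Sum.elim_inl, Sum.elim_inr]
        rw [h.left a b]
        split_ifs <;> simp)
    simp only [map_sub, map_sum, map_mul, MvPolynomial.aeval_X] at h1
    rw [sub_eq_zero.1 h1]
    split_ifs <;> simp
  · intro a b
    have h1 := hy ((∑ s, MvPolynomial.X (Sum.inr (a, s)) * MvPolynomial.X (Sum.inl (s, b))) -
      (if a = b then 1 else 0)) (by
        simp only [map_sub, map_sum, map_mul, MvPolynomial.aeval_X, 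
          Sum.elim_inl, Sum.elim_inr]
        rw [h.right a b]
        split_ifs <;> simp)
    simp only [map_sub, map_sum, map_mul, MvPolynomial.aeval_X] at h1
    rw [sub_eq_zero.1 h1]
    split_ifs <;> simp
  · intro t ht a r
    have h1 := hy (MvPolynomial.X (Sum.inl (t * a, t * r)) - MvPolynomial.X (Sum.inl (a, r))) (by
      simp only [map_sub, MvPolynomial.aeval_X, Sum.elim_inl]
      exact sub_eq_zero.2 (h.tor t ht a r).1)
    have h2 := hy (MvPolynomial.X (Sum.inl (a * t, r * t)) - MvPolynomial.X (Sum.inl (a, r))) (by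
      simp only [map_sub, MvPolynomial.aeval_X, Sum.elim_inl]
      exact sub_eq_zero.2 (h.tor t ht a r).2)
    simp only [map_sub, MvPolynomial.aeval_X] at h1 h2
    exact ⟨sub_eq_zero.1 h1, sub_eq_zero.1 h2⟩
  · intro r
    have h1 := hy (MvPolynomial.X (Sum.inl (1, r)) - (if r = 1 then 1 else 0)) (by
      simp only [map_sub, MvPolynomial.aeval_X, Sum.elim_inl]
      rw [h.one r]
      split_ifs <;> simp)
    simp only [map_sub, MvPolynomial.aeval_X] at h1
    rw [sub_eq_zero.1 h1]
    split_ifs <;> simp
  · intro α hα a r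
    have h1 := hy (MvPolynomial.X (Sum.inl (α a, α r)) - MvPolynomial.X (Sum.inl (a, r))) (by
      simp only [map_sub, MvPolynomial.aeval_X, Sum.elim_inl]
      exact sub_eq_zero.2 (h.inv α hα a r))
    simp only [map_sub, MvPolynomial.aeval_X] at h1
    exact sub_eq_zero.1 h1

end Pool.Agent.Helper41.TDC
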