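import Pool.Agent.Helper41.TDC.ApStep

/-!
# Project TD (MP_5ecade_al), TDC-07 Limit: the lifting over power series
-/

set_option autoImplicit false

open PowerSeries

namespace Pool.Agent.Helper41.TDC

open Pool.Agent.Helper81.TD

variable {N : Type} [Group N] [Fintype N] [DecidableEq N]

section general

variable {R : Type} [CommRing R] {T : Subgroup N} {A : Set (MulAut N)} {c Γ : N → N → N → R}

theorem Ap.mono {e e' : R} {l : N → N → R} (h : Ap T A c Γ e l) (he : e' ∣ e) : Ap T A c Γ e' l :=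
  ⟨h.one, h.tor, h.inv, fun a b r => he.trans (h.mul a b r)⟩

theorem ap_congr {e : R} {l l' : N → N → R} (h : ∀ a r, e ∣ l' a r - l a r) (a b r : N)
    (hl : e ∣ (∑ s, c a b s * l s r) - ∑ i, ∑ j, l a i * l b j * Γ i j r) :
    e ∣ (∑ s, c a b s * l' s r) - ∑ i, ∑ j, l' a i * l' b j * Γ i j r := by
  have h1 : ((∑ s, c a b s * l' s r) - ∑ i, ∑ j, l' a i * l' b j * Γ i j r) =
      ((∑ s, c a b s * l s r) - ∑ i, ∑ j, l a i * l b j * Γ i j r) +
        ((∑ s, c a b s * (l' s r - l s r)) -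
          ∑ i, ∑ j, ((l' a i - l a i) * l' b j + l a i * (l' b j - l b j)) * Γ i j r) := by
    have h2 : ∀ i j, ((l' a i - l a i) * l' b j + l a i * (l' b j - l b j)) * Γ i j r =
        l' a i * l' b j * Γ i j r - l a i * l b j * Γ i j r := fun i j => by ring
    have h3 : ∑ i, ∑ j, ((l' a i - l a i) * l' b j + l a i * (l' b j - l b j)) * Γ i j r =
        (∑ i, ∑ j, l' a i * l' b j * Γ i j r) - ∑ i, ∑ j, l a i * l b j * Γ i j r := by
      rw [← Finset.sum_sub_distrib]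
      refine Finset.sum_congr rfl fun i _ => ?_
      rw [← Finset.sum_sub_distrib]
      exact Finset.sum_congr rfl fun j _ => h2 i j
    rw [h3]
    simp only [mul_sub, Finset.sum_sub_distrib]
    ring
  rw [h1]
  refine dvd_add hl (dvd_sub (Finset.dvd_sum fun s _ => (h s r).mul_left _) ?_)
  exact Finset.dvd_sum fun i _ => Finset.dvd_sum fun j _ =>
    (dvd_add ((h a i).mul_right _) ((h b j).mul_left _)).mul_right _

end general

variable {K : Type} [Field K] {T : Subgroup N} {A : Set (MulAut N)} {c Γ : N → N → N → K⟦X⟧}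

theorem ap_limit (hc : Asc c) (hcT : TTr T c) (hcA : Inv A c) (hΓ : Asc Γ) (hΓT : TTr T Γ)
    (hΓA : Inv A Γ) {S : N → N → K⟦X⟧} (hS : Sep A c S)
    (h0 : ∀ a b r, (X : K⟦X⟧) ∣ c a b r - Γ a b r) :
    ∃ l : N → N → K⟦X⟧, Ap T A c Γ 0 l ∧ ∀ a r, (X : K⟦X⟧) ∣ l a r - if r = a then 1 else 0 := by
  have hstart : Ap T A c Γ ((X : K⟦X⟧) ^ (0 + 1)) (fun a r => if r = a then 1 else 0) := by
    refine ⟨fun r => rfl, fun t _ a r => ⟨?_, ?_⟩, fun α _ a r => ?_, fun a b r => ?_⟩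
    · simp
    · simp
    · simp
    · rw [zero_add, pow_one]
      convert h0 a b r using 2
      · simp
      · simp
  have hstep : ∀ (n : ℕ) (l : {l : N → N → K⟦X⟧ // Ap T A c Γ ((X : K⟦X⟧) ^ (n + 1)) l}),
      ∃ l' : {l : N → N → K⟦X⟧ // Ap T A c Γ ((X : K⟦X⟧) ^ (n + 1 + 1)) l},
        ∀ a r, (X : K⟦X⟧) ^ (n + 1) ∣ l'.1 a r - l.1 a r := by
    intro n l
    obtain ⟨l', h1, h2⟩ := ap_step hc hcT hcA hΓ hΓT hΓA hS l.2
    refine ⟨⟨l', h1.mono ?_⟩, h2⟩
    rw [← pow_add]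
    exact pow_dvd_pow _ (by omega)
  choose f hf using hstep
  let F : (n : ℕ) → {l : N → N → K⟦X⟧ // Ap T A c Γ ((X : K⟦X⟧) ^ (n + 1)) l} :=
    fun n => Nat.rec ⟨_, hstart⟩ (fun n l => f n l) n
  have hF0 : (F 0).1 = fun a r => if r = a then 1 else 0 := rfl
  have hF : ∀ n a r, (X : K⟦X⟧) ^ (n + 1) ∣ (F (n + 1)).1 a r - (F n).1 a r := fun n a r =>
    hf n (F n) a r
  have hFc : ∀ n m, n ≤ m → ∀ a r, coeff n ((F m).1 a r) = coeff n ((F n).1 a r) := by
    intro n m hnm a r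
    induction m, hnm using Nat.le_induction with
    | base => rfl
    | succ m hm ih =>
      rw [← ih, ← sub_eq_zero, ← map_sub]
      exact X_pow_dvd_iff.1 (hF m a r) n (by omega)
  let l : N → N → K⟦X⟧ := fun a r => PowerSeries.mk fun n => coeff n ((F n).1 a r)
  have hl : ∀ n a r, (X : K⟦X⟧) ^ (n + 1) ∣ l a r - (F n).1 a r := by
    intro n a r
    rw [X_pow_dvd_iff]
    intro m hm
    rw [map_sub, coeff_mk, hFc m n (by omega), sub_self]
  refine ⟨l, ⟨fun r => ?_, fun t ht a r => ⟨?_, ?_⟩, fun α hα a r => ?_, fun a b r => ?_⟩, ?_⟩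
  · ext n
    rw [coeff_mk, (F n).2.one]
  · ext n
    rw [coeff_mk, coeff_mk, ((F n).2.tor t ht a r).1]
  · ext n
    rw [coeff_mk, coeff_mk, ((F n).2.tor t ht a r).2]
  · ext n
    rw [coeff_mk, coeff_mk, (F n).2.inv α hα a r]
  · rw [zero_dvd_iff]
    ext n
    rw [map_zero]
    exact X_pow_dvd_iff.1 (ap_congr (hl n) a b r ((F n).2.mul a b r)) n (by omega)
  · intro a r
    have h1 := hl 0 a r
    rw [hF0] at h1
    rwa [zero_add, pow_one] at h1

theorem iso_ps {c₀ : N → N → N → K} (hΓ : Asc Γ) (hΓT : TTr T Γ) (hΓA : Inv A Γ)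
    (h0 : ∀ a b r, constantCoeff (Γ a b r) = c₀ a b r) {S : N → N → K} (hS : Sep A c₀ S) :
    ∃ X Y : N → N → K⟦X⟧, Iso T A (fun a b r => C (c₀ a b r)) Γ X Y := by
  have hc0 : c₀ = fun a b r => constantCoeff (Γ a b r) := by
    funext a b r
    exact (h0 a b r).symm
  have hc : Asc (fun a b r => (C (c₀ a b r) : K⟦X⟧)) := by
    intro a b d r
    have h1 := congrArg (fun x => (C (constantCoeff x) : K⟦X⟧)) (hΓ a b d r)
    simp only [map_sum, map_mul, h0] at h1
    exact h1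
  have hcT : TTr T (fun a b r => (C (c₀ a b r) : K⟦X⟧)) := by
    intro t ht b r
    obtain ⟨h1, h2⟩ := hΓT t ht b r
    constructor
    · show (C (c₀ t b r) : K⟦X⟧) = _
      rw [← h0, h1]
      split_ifs <;> simp
    · show (C (c₀ b t r) : K⟦X⟧) = _
      rw [← h0, h2]
      split_ifs <;> simp
  have hcA : Inv A (fun a b r => (C (c₀ a b r) : K⟦X⟧)) := by
    intro α hα a b r
    show (C (c₀ (α a) (α b) (α r)) : K⟦X⟧) = C (c₀ a b r)
    rw [← h0, ← h0, hΓA α hα]
  have hS' : Sep A (fun a b r => (C (c₀ a b r) : K⟦X⟧)) (fun a b => C (S a b)) := by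
    refine ⟨fun a x y => ?_, fun r => ?_, fun α hα a b => ?_⟩
    · have h1 := congrArg (C : K → K⟦X⟧) (hS.comm a x y)
      simpa only [map_sum, map_mul] using h1
    · have h1 := congrArg (C : K → K⟦X⟧) (hS.one r)
      simp only [map_sum, map_mul] at h1
      rw [h1]
      split_ifs <;> simp
    · rw [hS.inv α hα]
  obtain ⟨l, hl, hl1⟩ := ap_limit hc hcT hcA hΓ hΓT hΓA hS' (fun a b r => by
    rw [X_dvd_iff, map_sub, constantCoeff_C, h0, sub_self])
  set M : Matrix N N K⟦X⟧ := Matrix.of l with hM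
  have hdet : IsUnit M.det := by
    rw [PowerSeries.isUnit_iff_constantCoeff, RingHom.map_det]
    have h1 : (constantCoeff (R := K)).mapMatrix M = 1 := by
      ext a r
      have h2 := X_dvd_iff.1 (hl1 a r)
      rw [map_sub, sub_eq_zero] at h2
      show constantCoeff (l a r) = _
      rw [h2, Matrix.one_apply]
      by_cases h : r = a
      · rw [if_pos h, if_pos h.symm, map_one]
      · rw [if_neg h, if_neg (fun h' => h h'.symm), map_zero]
    rw [h1, Matrix.det_one]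
    exact isUnit_one
  refine ⟨l, fun a b => M⁻¹ a b, ⟨fun a b r => ?_, fun a b => ?_, fun a b => ?_, hl.tor, hl.one,
    hl.inv⟩⟩
  · have h1 := hl.mul a b r
    rw [zero_dvd_iff, sub_eq_zero] at h1
    exact h1
  · have h1 := congrFun (congrFun (Matrix.mul_nonsing_inv M hdet) a) b
    rw [Matrix.mul_apply, Matrix.one_apply] at h1
    exact h1
  · have h1 := congrFun (congrFun (Matrix.nonsing_inv_mul M hdet) a) b
    rw [Matrix.mul_apply, Matrix.one_apply] at h1
    exact h1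

end Pool.Agent.Helper41.TDC
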