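import Mathlib

/-!
# Project TD (MP_5ecade_al), TDC-01 Nst: transfer of solutions of polynomial systems

`k` a field, `E` a nontrivial commutative `k`-algebra, `Ω` an algebraically closed field over `k`.
A point `x : ι → E` (`ι` finite) can be replaced by a point `y : ι → Ω` which satisfies all polynomial
equations over `k` satisfied by `x`.

PROOF. `I = ker (aeval x : MvPolynomial ι k →ₐ[k] E)` is a proper ideal (`1` is not mapped to `0`, as `E` is
nontrivial). Take a maximal ideal `M` above it (`Ideal.exists_le_maximal`). `L = MvPolynomial ι k ⧸ M` is a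
field (`Ideal.Quotient.field`) of finite type over `k` (`Algebra.FiniteType.of_surjective` or instance), so a finite
extension of `k` by Zariski's lemma (`finite_of_finite_type_of_isJacobsonRing`), so algebraic
(`Algebra.IsAlgebraic.of_finite`), and there is `φ : L →ₐ[k] Ω` (`IsAlgClosed.lift`). Put
`y i = φ (mk (X i))`: `aeval y f = φ (mk f)` (`MvPolynomial.algHom_ext`), which is `0` if `f ∈ I ≤ M`.
-/

set_option autoImplicit false

namespace Pool.Agent.Helper41.TDC

theorem nst {k E Ω ι : Type} [Field k] [CommRing E] [Nontrivial E] [Algebra k E] [Field Ω]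
    [IsAlgClosed Ω] [Algebra k Ω] [Finite ι] (x : ι → E) :
    ∃ y : ι → Ω, ∀ f : MvPolynomial ι k, MvPolynomial.aeval x f = 0 → MvPolynomial.aeval y f = 0 := by
  have hI : RingHom.ker (MvPolynomial.aeval x : MvPolynomial ι k →ₐ[k] E) ≠ ⊤ := RingHom.ker_ne_top _
  obtain ⟨M, hM, hIM⟩ := Ideal.exists_le_maximal _ hI
  let _ : Field (MvPolynomial ι k ⧸ M) := Ideal.Quotient.field M
  have hft : Algebra.FiniteType k (MvPolynomial ι k ⧸ M) := inferInstance
  have hfin : Module.Finite k (MvPolynomial ι k ⧸ M) := finite_of_finite_type_of_isJacobsonRing _ _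
  have halg : Algebra.IsAlgebraic k (MvPolynomial ι k ⧸ M) := Algebra.IsAlgebraic.of_finite k _
  obtain ⟨φ⟩ : Nonempty ((MvPolynomial ι k ⧸ M) →ₐ[k] Ω) := ⟨IsAlgClosed.lift⟩
  refine ⟨fun i => φ (Ideal.Quotient.mk M (MvPolynomial.X i)), fun f hf => ?_⟩
  have h1 : (MvPolynomial.aeval (fun i => φ (Ideal.Quotient.mk M (MvPolynomial.X i))) :
      MvPolynomial ι k →ₐ[k] Ω) = φ.comp (Ideal.Quotient.mkₐ k M) := by
    apply MvPolynomial.algHom_ext
    intro i
    rw [MvPolynomial.aeval_X]
    rfl
  rw [h1]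
  have h2 : Ideal.Quotient.mkₐ k M f = 0 := by
    rw [Ideal.Quotient.mkₐ_eq_mk]
    exact Ideal.Quotient.eq_zero_iff_mem.2 (hIM hf)
  rw [AlgHom.comp_apply, h2, map_zero]

end Pool.Agent.Helper41.TDC
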