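import Pool.Agent.Helper41.TDC.Limit
import Pool.Agent.Helper41.TDC.IsoNst
import Pool.Agent.Helper41.TDC.Gpd

/-!
# Project TD (MP_5ecade_al), block C: rigidity
-/

set_option autoImplicit false

open Polynomial

namespace Pool.Agent.Helper41.TDC

open Pool.Agent.Helper81.TD

variable {N : Type} [Group N] [Fintype N] [DecidableEq N]

/-- expansion of a polynomial at `x` as a power series -/
noncomputable def ex (x : ℂ) : ℂ[X] →+* PowerSeries ℂ :=
  (coeToPowerSeries.ringHom).comp (taylorAlgHom x).toRingHom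

theorem ex_C (x z : ℂ) : ex x (C z) = PowerSeries.C z := by
  show ((taylor x (C z) : ℂ[X]) : PowerSeries ℂ) = _
  rw [taylor_C, coe_C]

theorem ex_zero (x : ℂ) (p : ℂ[X]) : PowerSeries.constantCoeff (ex x p) = p.eval x := by
  show PowerSeries.constantCoeff ((taylor x p : ℂ[X]) : PowerSeries ℂ) = _
  rw [constantCoeff_coe, taylor_coeff_zero]

theorem ex_injective (x : ℂ) : Function.Injective (ex x) := by
  intro p q h
  have h1 : ((taylor x p : ℂ[X]) : PowerSeries ℂ) = ((taylor x q : ℂ[X]) : PowerSeries ℂ) := h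
  exact taylor_injective x (coe_injective ℂ h1)

section map

variable {R R' : Type} [CommRing R] [CommRing R'] {T : Subgroup N} {A : Set (MulAut N)}
  {c : N → N → N → R}

theorem asc_map (f : R →+* R') (h : Asc c) : Asc (fun a b r => f (c a b r)) := by
  intro a b d r
  have h1 := congrArg f (h a b d r)
  simpa only [map_sum, map_mul] using h1

theorem ttr_map (f : R →+* R') (h : TTr T c) : TTr T (fun a b r => f (c a b r)) := by
  intro t ht b r
  obtain ⟨h1, h2⟩ := h t ht b r
  constructor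
  · show f (c t b r) = _
    rw [h1]
    split_ifs <;> simp
  · show f (c b t r) = _
    rw [h2]
    split_ifs <;> simp

theorem inv_map (f : R →+* R') (h : Inv A c) : Inv A (fun a b r => f (c a b r)) := by
  intro α hα a b r
  show f (c (α a) (α b) (α r)) = f (c a b r)
  rw [h α hα]

end map

/-- the algebraic closure of the rational functions -/
abbrev Om : Type := AlgebraicClosure (FractionRing ℂ[X])

theorem rigid_one {T : Subgroup N} {A : Set (MulAut N)} {Γ : N → N → N → ℂ[X]} (h1 : Asc Γ)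
    (h2 : TTr T Γ) (h3 : Inv A Γ) (x : ℂ) {S : N → N → ℂ}
    (h4 : Sep A (fun a b r => (Γ a b r).eval x) S) : ∃ X Y : N → N → Om, Iso T A
      (fun a b r => algebraMap (FractionRing ℂ[X]) Om (algebraMap ℂ[X] (FractionRing ℂ[X])
        (C ((Γ a b r).eval x))))
      (fun a b r => algebraMap (FractionRing ℂ[X]) Om (algebraMap ℂ[X] (FractionRing ℂ[X])
        (Γ a b r))) X Y := by
  obtain ⟨X, Y, hXY⟩ := iso_ps (K := ℂ) (Γ := fun a b r => ex x (Γ a b r)) (asc_map (ex x) h1)
    (ttr_map (ex x) h2) (inv_map (ex x) h3) (c₀ := fun a b r => (Γ a b r).eval x)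
    (fun a b r => ex_zero x (Γ a b r)) h4
  let g : ℂ[X] →+* FractionRing (PowerSeries ℂ) :=
    (algebraMap (PowerSeries ℂ) (FractionRing (PowerSeries ℂ))).comp (ex x)
  have hg : Function.Injective g :=
    (IsFractionRing.injective (PowerSeries ℂ) (FractionRing (PowerSeries ℂ))).comp (ex_injective x)
  letI : Algebra (FractionRing ℂ[X]) (FractionRing (PowerSeries ℂ)) :=
    (IsFractionRing.lift (K := FractionRing ℂ[X]) hg).toAlgebra
  have hal : ∀ p : ℂ[X], algebraMap (FractionRing ℂ[X]) (FractionRing (PowerSeries ℂ))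
      (algebraMap ℂ[X] (FractionRing ℂ[X]) p) =
      algebraMap (PowerSeries ℂ) (FractionRing (PowerSeries ℂ)) (ex x p) := fun p =>
    IsFractionRing.lift_algebraMap hg p
  have h5 := iso_map (algebraMap (PowerSeries ℂ) (FractionRing (PowerSeries ℂ))) hXY
  refine iso_nst (E := FractionRing (PowerSeries ℂ))
    (fun a b r => algebraMap ℂ[X] (FractionRing ℂ[X]) (C ((Γ a b r).eval x)))
    (fun a b r => algebraMap ℂ[X] (FractionRing ℂ[X]) (Γ a b r))
    (X := fun a r => algebraMap (PowerSeries ℂ) (FractionRing (PowerSeries ℂ)) (X a r))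
    (Y := fun a r => algebraMap (PowerSeries ℂ) (FractionRing (PowerSeries ℂ)) (Y a r)) ?_
  simp only [hal, ex_C]
  exact h5

theorem rigid (T : Subgroup N) (A : Set (MulAut N)) (Γ : N → N → N → ℂ[X]) (h1 : Asc Γ)
    (h2 : TTr T Γ) (h3 : Inv A Γ) (S₀ S₁ : N → N → ℂ)
    (h4 : Sep A (fun a b r => (Γ a b r).eval 0) S₀)
    (h5 : Sep A (fun a b r => (Γ a b r).eval 1) S₁) :
    ∃ X Y : N → N → ℂ, Iso T A (fun a b r => (Γ a b r).eval 0) (fun a b r => (Γ a b r).eval 1)
      X Y := by
  obtain ⟨X0, Y0, h6⟩ := rigid_one h1 h2 h3 0 h4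
  obtain ⟨X1, Y1, h7⟩ := rigid_one h1 h2 h3 1 h5
  have h8 := iso_trans h6 (iso_symm h7)
  letI : Algebra ℂ Om := ((algebraMap (FractionRing ℂ[X]) Om).comp
    ((algebraMap ℂ[X] (FractionRing ℂ[X])).comp C)).toAlgebra
  exact iso_nst (k := ℂ) (E := Om) (Ω := ℂ) (fun a b r => (Γ a b r).eval 0)
    (fun a b r => (Γ a b r).eval 1) h8

end Pool.Agent.Helper41.TDC
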