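import Pool.Agent.Helper41.TDC.Casimir

/-!
# Project TD (MP_5ecade_al), block D: separability of the group algebra and of the Hecke algebra

The form `⟨x, y⟩ = ∑ q n x n y n` satisfies `⟨T_a x, y⟩ = ⟨x, T_{a⁻¹} y⟩`, so `Z = ∑ q(n)⁻¹ T_n T_{n⁻¹}` is positive
definite, so invertible; `sep_of_cas`.
-/

set_option autoImplicit false

namespace Pool.Agent.Helper41.TDC

open Pool.Agent.Helper81.TD

variable {N : Type} [Group N] [Fintype N] [DecidableEq N]

theorem sep_group (A : Set (MulAut N)) :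
    Sep A (gc : N → N → N → ℂ) (fun a b => if b = a⁻¹ then (Fintype.card N : ℂ)⁻¹ else 0) := by
  have hN : (Fintype.card N : ℂ) ≠ 0 := by
    exact_mod_cast Fintype.card_ne_zero
  refine ⟨fun a x y => ?_, fun r => ?_, fun α _ a b => ?_⟩
  · simp only [gc, mul_ite, mul_one, mul_zero]
    rw [Finset.sum_eq_single (a⁻¹ * x), Finset.sum_eq_single x⁻¹]
    · rw [if_pos (by group), if_pos rfl]
      by_cases h : y = (a⁻¹ * x)⁻¹
      · rw [if_pos h, if_pos (by rw [h]; group)]
      · rw [if_neg h, if_neg]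
        rintro rfl
        exact h (by group)
    · intro s _ hs
      rw [if_neg hs, ite_self]
    · intro h
      exact absurd (Finset.mem_univ _) h
    · intro s _ hs
      rw [if_neg]
      rintro rfl
      exact hs (by group)
    · intro h
      exact absurd (Finset.mem_univ _) h
  · have h1 : ∀ a : N, ∑ b, (if b = a⁻¹ then (Fintype.card N : ℂ)⁻¹ else 0) * gc a b r =
        (Fintype.card N : ℂ)⁻¹ * if r = 1 then 1 else 0 := by
      intro a
      rw [Finset.sum_eq_single a⁻¹]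
      · rw [if_pos rfl, gc, mul_inv_cancel]
      · intro b _ hb
        rw [if_neg hb, zero_mul]
      · intro h
        exact absurd (Finset.mem_univ _) h
    simp only [h1, Finset.sum_const, Finset.card_univ, nsmul_eq_mul]
    rw [← mul_assoc, mul_inv_cancel₀ hN, one_mul]
  · have h1 : α b = (α a)⁻¹ ↔ b = a⁻¹ := by
      rw [← map_inv, α.injective.eq_iff]
    simp only [h1]

variable {T : Subgroup N} {Sim : Set N} {q : N → ℕ} {c : N → N → N → ℝ}

/-- the Casimir element of a Hecke datum -/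
noncomputable def S0 (q : N → ℕ) (a b : N) : ℝ := if b = a⁻¹ then (q a : ℝ)⁻¹ else 0

theorem sym2 (h : HD T Sim q c) (a b r : N) : q r * c a b r = q b * c a⁻¹ r b := by
  rw [h.sym, h.anti r⁻¹, inv_inv, inv_inv]

theorem qpos (h : HD T Sim q c) (n : N) : (0 : ℝ) < q n := by
  exact_mod_cast h.q_pos n

theorem S0_comm (h : HD T Sim q c) (a x y : N) :
    ∑ s, S0 q s y * c a s x = ∑ s, S0 q x s * c s a y := by
  simp only [S0, ite_mul, zero_mul]
  rw [Finset.sum_eq_single y⁻¹, Finset.sum_eq_single x⁻¹]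
  · rw [if_pos (by group), if_pos rfl, h.q_inv]
    have h1 := h.sym a y⁻¹ x
    rw [h.q_inv, inv_inv] at h1
    have h2 := (qpos h x).ne'
    have h3 := (qpos h y).ne'
    field_simp
    linarith
  · intro s _ hs
    rw [if_neg hs]
  · intro h
    exact absurd (Finset.mem_univ _) h
  · intro s _ hs
    rw [if_neg]
    rintro rfl
    exact hs (by group)
  · intro h
    exact absurd (Finset.mem_univ _) h

/-- the invariant form -/
noncomputable def frm (q : N → ℕ) (x y : N → ℝ) : ℝ := ∑ n, q n * x n * y n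

theorem frm_adj (h : HD T Sim q c) (a : N) (x y : N → ℝ) :
    frm q (Matrix.mulVec (Lm c a) x) y = frm q x (Matrix.mulVec (Lm c a⁻¹) y) := by
  simp only [frm, Matrix.mulVec, dotProduct, Lm_apply, Finset.sum_mul, Finset.mul_sum]
  rw [Finset.sum_comm]
  refine Finset.sum_congr rfl fun b _ => Finset.sum_congr rfl fun r _ => ?_
  have h1 := sym2 h a b r
  calc (q r : ℝ) * (c a b r * x b) * y r = (q r * c a b r) * x b * y r := by ring
    _ = (q b * c a⁻¹ r b) * x b * y r := by rw [h1]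
    _ = _ := by ring

theorem frm_nonneg (h : HD T Sim q c) (x : N → ℝ) : 0 ≤ frm q x x :=
  Finset.sum_nonneg fun n _ => by
    have := (qpos h n).le
    rw [mul_assoc]
    exact mul_nonneg this (mul_self_nonneg _)

theorem Zc_vec (c : N → N → N → ℝ) (x : N → ℝ) : Matrix.mulVec (Zc c (S0 q)) x =
    fun r => ∑ n, (q n : ℝ)⁻¹ * Matrix.mulVec (Lm c n) (Matrix.mulVec (Lm c n⁻¹) x) r := by
  have h1 : Zc c (S0 q) = ∑ n, (q n : ℝ)⁻¹ • (Lm c n * Lm c n⁻¹) := by
    simp only [Zc, S0, ite_smul, zero_smul, Finset.sum_ite_eq', Finset.mem_univ, if_true]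
  rw [h1]
  funext r
  rw [Matrix.sum_mulVec, Finset.sum_apply]
  refine Finset.sum_congr rfl fun n _ => ?_
  rw [Matrix.smul_mulVec, ← Matrix.mulVec_mulVec]
  rfl

theorem Zc_det (h : HD T Sim q c) : (Zc c (S0 q)).det ≠ 0 := by
  intro hdet
  obtain ⟨v, hv, hv0⟩ := Matrix.exists_mulVec_eq_zero_iff.2 hdet
  have h1 : frm q v (Matrix.mulVec (Zc c (S0 q)) v) = ∑ n, (q n : ℝ)⁻¹ *
      frm q (Matrix.mulVec (Lm c n⁻¹) v) (Matrix.mulVec (Lm c n⁻¹) v) := by
    have h2 : ∀ n, frm q (Matrix.mulVec (Lm c n⁻¹) v) (Matrix.mulVec (Lm c n⁻¹) v) =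
        frm q v (Matrix.mulVec (Lm c n) (Matrix.mulVec (Lm c n⁻¹) v)) := by
      intro n
      have h3 := frm_adj h n⁻¹ v (Matrix.mulVec (Lm c n⁻¹) v)
      rwa [inv_inv] at h3
    rw [Zc_vec]
    simp only [h2]
    simp only [frm, Finset.mul_sum]
    rw [Finset.sum_comm]
    refine Finset.sum_congr rfl fun n _ => Finset.sum_congr rfl fun r _ => ?_
    ring
  rw [hv0] at h1
  have h2 : frm q v 0 = 0 := by simp [frm]
  rw [h2] at h1
  have h3 : ∀ n ∈ Finset.univ, 0 ≤ (q n : ℝ)⁻¹ *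
      frm q (Matrix.mulVec (Lm c n⁻¹) v) (Matrix.mulVec (Lm c n⁻¹) v) := fun n _ =>
    mul_nonneg (inv_nonneg.2 (qpos h n).le) (frm_nonneg h _)
  have h4 := (Finset.sum_eq_zero_iff_of_nonneg h3).1 h1.symm 1 (Finset.mem_univ _)
  rw [inv_one, Lm_one h.ttr, Matrix.one_mulVec] at h4
  have h5 : frm q v v = 0 := by
    rcases mul_eq_zero.1 h4 with h6 | h6
    · exact absurd h6 (inv_ne_zero (qpos h 1).ne')
    · exact h6
  apply hv
  funext n
  have h6 : ∀ n ∈ Finset.univ, 0 ≤ (q n : ℝ) * v n * v n := fun n _ => by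
    rw [mul_assoc]
    exact mul_nonneg (qpos h n).le (mul_self_nonneg _)
  have h7 := (Finset.sum_eq_zero_iff_of_nonneg h6).1 h5 n (Finset.mem_univ _)
  rw [mul_assoc] at h7
  rcases mul_eq_zero.1 h7 with h8 | h8
  · exact absurd h8 (qpos h n).ne'
  · exact mul_self_eq_zero.1 h8

theorem exists_sep (h : HD T Sim q c) :
    ∃ S : N → N → ℂ, Sep (AutHD Sim q c) (fun a b r => (c a b r : ℂ)) S := by
  have hdet := Zc_det h
  have hu : IsUnit (Zc c (S0 q)).det := isUnit_iff_ne_zero.2 hdet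
  have h1 := sep_of_cas (A := AutHD Sim q c) h.asc h.ttr (fun α hα => hα.2.2) (S0_comm h)
    (fun α hα a b => by
      have h1 : α b = (α a)⁻¹ ↔ b = a⁻¹ := by
        rw [← map_inv, α.injective.eq_iff]
      simp only [S0, h1, hα.2.1])
    (Matrix.mul_nonsing_inv _ hu) (Matrix.nonsing_inv_mul _ hu)
  refine ⟨fun a b => ((Sc c (S0 q) (Zc c (S0 q))⁻¹ a b : ℝ) : ℂ), ⟨fun a x y => ?_, fun r => ?_,
    fun α hα a b => ?_⟩⟩
  · exact_mod_cast h1.comm a x y
  · have h2 := h1.one r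
    have h3 := congrArg (fun x : ℝ => (x : ℂ)) h2
    push_cast at h3
    rw [h3]
    split_ifs <;> simp
  · rw [h1.inv α hα]

end Pool.Agent.Helper41.TDC
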