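import Pool.Agent.Helper81.TD.Defs

/-!
# Project TD (MP_5ecade_al), TDC-04 Step: one step of the lifting of an algebra homomorphism

`c`: structure constants of an associative algebra over `R` with a separability element `S`, `l : N → 𝔸` a map of the
basis to an `R`-algebra `𝔸` with `l 1 = 1`.  `df c l a b` is the defect, `l + cor c S l` the corrected map.  If the defect is
divisible by `e`, the new defect is divisible by `e * e`.
-/

set_option autoImplicit false

namespace Pool.Agent.Helper41.TDC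

open Pool.Agent.Helper81.TD

variable {N : Type} [Group N] [Fintype N] [DecidableEq N] {R : Type} [CommRing R]
  {𝔸 : Type} [Ring 𝔸] [Algebra R 𝔸]

/-- the defect of `l` -/
def df (c : N → N → N → R) (l : N → 𝔸) (a b : N) : 𝔸 := (∑ s, c a b s • l s) - l a * l b

/-- the correction -/
def cor (c : N → N → N → R) (S : N → N → R) (l : N → 𝔸) (a : N) : 𝔸 :=
  ∑ u, ∑ v, S u v • (l u * df c l v a)

variable {c : N → N → N → R} {S : N → N → R} {l : N → 𝔸}

/-- divisibility by a scalar -/
def Dv (e : R) (x : 𝔸) : Prop := ∃ y, x = e • y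

theorem Dv.add {e : R} {x y : 𝔸} (hx : Dv e x) (hy : Dv e y) : Dv e (x + y) := by
  obtain ⟨x, rfl⟩ := hx
  obtain ⟨y, rfl⟩ := hy
  exact ⟨x + y, (smul_add _ _ _).symm⟩

theorem Dv.neg {e : R} {x : 𝔸} (hx : Dv e x) : Dv e (-x) := by
  obtain ⟨x, rfl⟩ := hx
  exact ⟨-x, (smul_neg _ _).symm⟩

theorem Dv.sub {e : R} {x y : 𝔸} (hx : Dv e x) (hy : Dv e y) : Dv e (x - y) := by
  rw [sub_eq_add_neg]
  exact hx.add hy.neg

theorem Dv.mul_left {e : R} {x : 𝔸} (z : 𝔸) (hx : Dv e x) : Dv e (z * x) := by
  obtain ⟨x, rfl⟩ := hx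
  exact ⟨z * x, Algebra.mul_smul_comm _ _ _⟩

theorem Dv.mul_right {e : R} {x : 𝔸} (z : 𝔸) (hx : Dv e x) : Dv e (x * z) := by
  obtain ⟨x, rfl⟩ := hx
  exact ⟨x * z, Algebra.smul_mul_assoc _ _ _⟩

theorem Dv.smul {e : R} {x : 𝔸} (r : R) (hx : Dv e x) : Dv e (r • x) := by
  obtain ⟨x, rfl⟩ := hx
  exact ⟨r • x, smul_comm _ _ _⟩

theorem Dv.mul {e f : R} {x y : 𝔸} (hx : Dv e x) (hy : Dv f y) : Dv (e * f) (x * y) := by
  obtain ⟨x, rfl⟩ := hx
  obtain ⟨y, rfl⟩ := hy
  exact ⟨x * y, by rw [Algebra.smul_mul_assoc, Algebra.mul_smul_comm, smul_smul]⟩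

theorem Dv.sum {e : R} {ι : Type} (s : Finset ι) {f : ι → 𝔸} (h : ∀ i ∈ s, Dv e (f i)) :
    Dv e (∑ i ∈ s, f i) := by
  classical
  induction s using Finset.induction_on with
  | empty => exact ⟨0, by simp⟩
  | insert a s ha ih =>
    rw [Finset.sum_insert ha]
    exact (h a (Finset.mem_insert_self _ _)).add (ih fun i hi => h i (Finset.mem_insert_of_mem hi))

theorem cor_dv {e : R} (hd : ∀ a b, Dv e (df c l a b)) (a : N) : Dv e (cor c S l a) :=
  Dv.sum _ fun u _ => Dv.sum _ fun v _ => ((hd v a).mul_left (l u)).smul _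

/-- the cocycle identity of the defect -/
theorem df_cocycle (hc : Asc c) (x y z : N) :
    l x * df c l y z - (∑ s, c x y s • df c l s z) + (∑ s, c y z s • df c l x s) -
      df c l x y * l z = 0 := by
  have h1 : ∑ s, c x y s • df c l s z =
      (∑ r, (∑ s, c x y s * c s z r) • l r) - (∑ s, c x y s • l s) * l z := by
    simp only [df, smul_sub, Finset.sum_sub_distrib, Finset.smul_sum, Finset.sum_mul,
      Finset.sum_smul, smul_smul, Algebra.smul_mul_assoc]
    congr 1
    exact Finset.sum_comm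
  have h2 : ∑ s, c y z s • df c l x s =
      (∑ r, (∑ s, c y z s * c x s r) • l r) - l x * (∑ s, c y z s • l s) := by
    simp only [df, smul_sub, Finset.sum_sub_distrib, Finset.smul_sum, Finset.mul_sum,
      Finset.sum_smul, smul_smul, Algebra.mul_smul_comm]
    congr 1
    exact Finset.sum_comm
  have h3 : (∑ r, (∑ s, c x y s * c s z r) • l r) = ∑ r, (∑ s, c y z s * c x s r) • l r :=
    Finset.sum_congr rfl fun r _ => by rw [hc x y z r]
  rw [h1, h2, h3]
  simp only [df]
  noncomm_ring

theorem step (hc : Asc c) (hs : ∀ a x y, ∑ s, S s y * c a s x = ∑ s, S x s * c s a y)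
    (h1 : ∀ r, ∑ a, ∑ b, S a b * c a b r = if r = 1 then 1 else 0) (hl : l 1 = 1) (e : R)
    (hd : ∀ a b, Dv e (df c l a b)) (a b : N) :
    Dv (e * e) (df c (fun x => l x + cor c S l x) a b) := by
  -- the three sums
  have e1 : ∑ u, ∑ v, S u v • (l u * l v * df c l a b) =
      df c l a b - (∑ u, ∑ v, S u v • df c l u v) * df c l a b := by
    have h2 : ∑ u, ∑ v, S u v • (l u * l v) =
        1 - ∑ u, ∑ v, S u v • df c l u v := by
      have h3 : ∀ u v, l u * l v = (∑ s, c u v s • l s) - df c l u v := fun u v => by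
        simp only [df]
        noncomm_ring
      simp only [h3, smul_sub, Finset.sum_sub_distrib]
      congr 1
      have h4 : ∑ u, ∑ v, S u v • ∑ s, c u v s • l s = ∑ s, (∑ u, ∑ v, S u v * c u v s) • l s := by
        simp only [Finset.smul_sum, Finset.sum_smul, smul_smul]
        rw [Finset.sum_comm' (t' := Finset.univ) (s' := fun _ => Finset.univ) (by simp)]
        conv_rhs => rw [Finset.sum_comm]
        rw [Finset.sum_comm]
        exact Finset.sum_congr rfl fun u _ => Finset.sum_comm
      rw [h4]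
      simp only [h1, ite_smul, one_smul, zero_smul, Finset.sum_ite_eq', Finset.mem_univ, if_true, hl]
    have h5 : ∑ u, ∑ v, S u v • (l u * l v * df c l a b) =
        (∑ u, ∑ v, S u v • (l u * l v)) * df c l a b := by
      simp only [Finset.sum_mul, Algebra.smul_mul_assoc]
    rw [h5, h2, sub_mul, one_mul]
  have e2 : ∑ u, ∑ v, S u v • (l u * ∑ s, c v a s • df c l s b) =
      l a * cor c S l b + ∑ w, ∑ s, S w s • (df c l a w * df c l s b) := by
    have h2 : ∑ u, ∑ v, S u v • (l u * ∑ s, c v a s • df c l s b) =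
        ∑ u, ∑ s, (∑ v, S u v * c v a s) • (l u * df c l s b) := by
      refine Finset.sum_congr rfl fun u _ => ?_
      simp only [Finset.mul_sum, Algebra.mul_smul_comm, Finset.smul_sum, smul_smul, Finset.sum_smul]
      exact Finset.sum_comm
    have h3 : ∑ u, ∑ s, (∑ v, S u v * c v a s) • (l u * df c l s b) =
        ∑ u, ∑ s, (∑ w, S w s * c a w u) • (l u * df c l s b) := by
      refine Finset.sum_congr rfl fun u _ => Finset.sum_congr rfl fun s _ => ?_
      rw [hs a u s]
    have h4 : ∑ u, ∑ s, (∑ w, S w s * c a w u) • (l u * df c l s b) =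
        ∑ w, ∑ s, S w s • ((∑ u, c a w u • l u) * df c l s b) := by
      simp only [Finset.sum_smul, Finset.sum_mul, Finset.smul_sum, smul_smul, Algebra.smul_mul_assoc]
      calc ∑ u, ∑ s, ∑ w, (S w s * c a w u) • (l u * df c l s b)
          = ∑ u, ∑ w, ∑ s, (S w s * c a w u) • (l u * df c l s b) :=
            Finset.sum_congr rfl fun u _ => Finset.sum_comm
        _ = ∑ w, ∑ u, ∑ s, (S w s * c a w u) • (l u * df c l s b) := Finset.sum_comm
        _ = _ := Finset.sum_congr rfl fun w _ => Finset.sum_comm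
    have h5 : ∀ w, (∑ u, c a w u • l u) = l a * l w + df c l a w := fun w => by
      simp only [df]
      noncomm_ring
    rw [h2, h3, h4]
    simp only [h5, add_mul, smul_add, Finset.sum_add_distrib]
    congr 1
    simp only [cor, Finset.mul_sum, Algebra.mul_smul_comm, mul_assoc]
  have e3 : ∑ u, ∑ v, S u v • (l u * ∑ s, c a b s • df c l v s) = ∑ s, c a b s • cor c S l s := by
    simp only [cor, Finset.mul_sum, Algebra.mul_smul_comm, Finset.smul_sum, smul_smul]
    calc ∑ u, ∑ v, ∑ s, (S u v * c a b s) • (l u * df c l v s)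
        = ∑ u, ∑ s, ∑ v, (S u v * c a b s) • (l u * df c l v s) :=
          Finset.sum_congr rfl fun u _ => Finset.sum_comm
      _ = ∑ s, ∑ u, ∑ v, (S u v * c a b s) • (l u * df c l v s) := Finset.sum_comm
      _ = _ := by simp only [mul_comm (c a b _)]
  have e4 : ∑ u, ∑ v, S u v • (l u * (df c l v a * l b)) = cor c S l a * l b := by
    simp only [cor, Finset.sum_mul, Algebra.smul_mul_assoc, mul_assoc]
  have e5 : ∑ u, ∑ v, S u v • (l u * (l v * df c l a b - (∑ s, c v a s • df c l s b) +
      (∑ s, c a b s • df c l v s) - df c l v a * l b)) = 0 := by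
    simp only [df_cocycle hc, mul_zero, smul_zero, Finset.sum_const_zero]
  simp only [mul_sub, mul_add, smul_sub, smul_add, Finset.sum_sub_distrib, Finset.sum_add_distrib,
    ← mul_assoc (l _) (l _)] at e5
  rw [e1, e2, e3, e4] at e5
  have e7 : df c (fun x => l x + cor c S l x) a b =
      (∑ u, ∑ v, S u v • df c l u v) * df c l a b +
        (∑ w, ∑ s, S w s • (df c l a w * df c l s b)) - cor c S l a * cor c S l b := by
    have h2 : df c (fun x => l x + cor c S l x) a b = df c l a b + (∑ s, c a b s • cor c S l s) -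
        l a * cor c S l b - cor c S l a * l b - cor c S l a * cor c S l b := by
      simp only [df, smul_add, Finset.sum_add_distrib]
      noncomm_ring
    rw [h2, ← sub_eq_zero]
    rw [← e5]
    abel
  rw [e7]
  refine ((Dv.mul ?_ (hd a b)).add ?_).sub (Dv.mul (cor_dv hd a) (cor_dv hd b))
  · exact Dv.sum _ fun u _ => Dv.sum _ fun v _ => (hd u v).smul _
  · exact Dv.sum _ fun w _ => Dv.sum _ fun s _ => ((hd a w).mul (hd s b)).smul _

end Pool.Agent.Helper41.TDC
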